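import Pool.Agent.Q328.HIT.Sim
import Pool.Agent.Q328.TG.Enc

/-!
# Hit: instances
-/

set_option autoImplicit false

namespace Pool.Agent.NPC.Q328.HIT

open Pool.Agent.NPC Pool.Agent.NPC.ANN Pool.Agent.H820R2.SS Pool.Agent.NPC.Q328.TG

/-! ### Renaming vertices -/

theorem transport {V : Type} [DecidableEq V] {E : ℕ → V → V → Prop} {E' : ℕ → ℕ → ℕ → Prop}
    {ok : V → Prop} {f : V → ℕ} (hE : ∀ i u v, E i u v → ok u ∧ ok v)
    (hf : ∀ u v, ok u → ok v → f u = f v → u = v)
    (hE' : ∀ i x y, E' i x y ↔ ∃ u v, E i u v ∧ f u = x ∧ f v = y)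
    {P : V → Option ℕ} {Q : ℕ → Option ℕ} (h1 : ∀ v, ok v → Q (f v) = P v)
    (h2 : ∀ v, ¬ ok v → P v = none) (h3 : ∀ x, (∀ v, ok v → f v ≠ x) → Q x = none) {w : Bool} :
    Forces (HMove E) w P ↔ Forces (HMove E') w Q := by
  -- the common part
  have key : ∀ (P : V → Option ℕ) (Q : ℕ → Option ℕ) (i : ℕ) (u v : V), ok u → ok v →
      ((∀ v, ok v → Q (f v) = P v) ∧ (∀ v, ¬ ok v → P v = none) ∧
        (∀ x, (∀ v, ok v → f v ≠ x) → Q x = none)) →
      ((∀ v', ok v' → (Function.update (Function.update Q (f u) none) (f v) (some i)) (f v') =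
          (Function.update (Function.update P u none) v (some i)) v') ∧
        (∀ v', ¬ ok v' → (Function.update (Function.update P u none) v (some i)) v' = none) ∧
        (∀ x, (∀ v', ok v' → f v' ≠ x) → (Function.update (Function.update Q (f u) none) (f v)
          (some i)) x = none)) := by
    rintro P Q i u v hu hv ⟨h1, h2, h3⟩
    refine ⟨fun v' hv' => ?_, fun v' hv' => ?_, fun x hx => ?_⟩
    · simp only [Function.update_apply]
      by_cases h4 : v' = v
      · subst h4
        rw [if_pos rfl, if_pos rfl]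
      · rw [if_neg h4, if_neg (fun h => h4 (hf _ _ hv' hv h))]
        by_cases h5 : v' = u
        · subst h5
          rw [if_pos rfl, if_pos rfl]
        · rw [if_neg h5, if_neg (fun h => h5 (hf _ _ hv' hu h))]
          exact h1 _ hv'
    · have h4 : v' ≠ v := fun h => hv' (h ▸ hv)
      have h5 : v' ≠ u := fun h => hv' (h ▸ hu)
      rw [Function.update_of_ne h4, Function.update_of_ne h5]
      exact h2 _ hv'
    · rw [Function.update_of_ne (Ne.symm (hx v hv)), Function.update_of_ne (Ne.symm (hx u hu))]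
      exact h3 _ hx
  refine Forces.bisim_iff (R := fun P Q => (∀ v, ok v → Q (f v) = P v) ∧
    (∀ v, ¬ ok v → P v = none) ∧ (∀ x, (∀ v, ok v → f v ≠ x) → Q x = none)) ?_ ?_ ⟨h1, h2, h3⟩
  · rintro P Q hR P' ⟨i, u, v, hu, he, rfl⟩
    obtain ⟨hou, hov⟩ := hE _ _ _ he
    exact ⟨_, ⟨i, f u, f v, by rw [hR.1 _ hou, hu], (hE' _ _ _).2 ⟨u, v, he, rfl, rfl⟩, rfl⟩,
      key P Q i u v hou hov hR⟩
  · rintro P Q hR Q' ⟨i, x, y, hx, he, rfl⟩
    obtain ⟨u, v, he', rfl, rfl⟩ := (hE' _ _ _).1 he
    obtain ⟨hou, hov⟩ := hE _ _ _ he'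
    exact ⟨_, ⟨i, u, v, by rw [← hR.1 _ hou, hx], he', rfl⟩, key P Q i u v hou hov hR⟩

/-! ### Labels -/

/-- The label of a vertex. -/
def codeW : W → Lb
  | .b v => code v
  | .e2 => (14, 0, 0, 0)
  | .e3 => (15, 0, 0, 0)
  | .r0 j => (16, j, 0, 0)
  | .r1 j => (17, j, 0, 0)

theorem code_lt (v : V) : (code v).1 < 14 := by
  rcases v with _ | _ | _ | _ | _ | _ | r | ⟨r, i, k⟩ | ⟨r, i, k⟩ | ⟨r, i, k⟩ | ⟨r, i, k⟩ |
    ⟨j, y | _ | _⟩ <;> simp [code]

theorem codeW_inj : Function.Injective codeW := by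
  intro a b h
  rcases a with a | _ | _ | i | i <;> rcases b with b | _ | _ | i' | i'
  case b.b => exact congrArg W.b (code_inj h)
  case b.e2 => have := code_lt a; rw [show code a = (14, 0, 0, 0) from h] at this; simp at this
  case b.e3 => have := code_lt a; rw [show code a = (15, 0, 0, 0) from h] at this; simp at this
  case b.r0 => have := code_lt a; rw [show code a = (16, i', 0, 0) from h] at this; simp at this
  case b.r1 => have := code_lt a; rw [show code a = (17, i', 0, 0) from h] at this; simp at this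
  case e2.b => have := code_lt b; rw [show code b = (14, 0, 0, 0) from h.symm] at this; simp at this
  case e3.b => have := code_lt b; rw [show code b = (15, 0, 0, 0) from h.symm] at this; simp at this
  case r0.b => have := code_lt b; rw [show code b = (16, i, 0, 0) from h.symm] at this; simp at this
  case r1.b => have := code_lt b; rw [show code b = (17, i, 0, 0) from h.symm] at this; simp at this
  all_goals first
    | rfl
    | (exfalso; revert h; simp [codeW]; done)
    | (simp [codeW] at h; simp [h])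

/-- the labels of the used vertices -/
def okLW (M : ARM) (z : Lb) : Bool :=
  (decide (z.1 < 14) && okL M z) ||
  ((decide (z.1 = 14) || decide (z.1 = 15)) && (decide (z.2.1 = 0) && (decide (z.2.2.1 = 0) &&
    decide (z.2.2.2 = 0)))) ||
  ((decide (z.1 = 16) || decide (z.1 = 17)) && (decide (z.2.1 < M.1.length) &&
    (decide (z.2.2.1 = 0) && decide (z.2.2.2 = 0))))

theorem enc : Enc codeW 18 okW okLW where
  inj := codeW_inj
  ok_code M v := by
    rcases v with v | _ | _ | i | i
    · have h1 := code_lt v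
      have h2 : (code v).1 ≠ 14 := by omega
      have h3 : (code v).1 ≠ 15 := by omega
      have h4 : (code v).1 ≠ 16 := by omega
      have h5 : (code v).1 ≠ 17 := by omega
      simp [okLW, codeW, okW, h1, h2, h3, h4, h5, okL_code]
    · simp [okLW, codeW, okW]
    · simp [okLW, codeW, okW]
    · simp [okLW, codeW, okW] <;> congr
    · simp [okLW, codeW, okW] <;> congr
  surj M z hz h := by
    obtain ⟨k, a, b, c⟩ := z
    simp only at hz
    unfold okLW at h
    simp only [Bool.or_eq_true, Bool.and_eq_true, decide_eq_true_eq] at h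
    rcases h with (⟨h1, h2⟩ | ⟨h1, h2, h3, h4⟩) | ⟨h1, h2, h3, h4⟩
    · obtain ⟨v, hv⟩ := okL_surj h1 h2
      exact ⟨.b v, hv⟩
    · subst h2 h3 h4
      rcases h1 with rfl | rfl
      · exact ⟨.e2, rfl⟩
      · exact ⟨.e3, rfl⟩
    · subst h3 h4
      rcases h1 with rfl | rfl
      · exact ⟨.r0 a, rfl⟩
      · exact ⟨.r1 a, rfl⟩
  bound M v hv := by
    have hB := Bd_regs M
    rcases v with v | _ | _ | i | i
    · have h1 := mem_vs.2 ⟨v, hv, rfl⟩
      unfold vs at h1
      rw [List.mem_filter] at h1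
      have h2 := h1.1
      simp only [codeW]
      have h3 := code_lt v
      generalize code v = z at h2 h3
      obtain ⟨k, a, b, c⟩ := z
      simp only [List.mem_product, List.mem_range] at h2
      simp only at h3
      exact ⟨by omega, h2.2⟩
    · simp only [codeW]; omega
    · simp only [codeW]; omega
    · simp only [okW, decide_eq_true_eq] at hv
      simp only [codeW]; omega
    · simp only [okW, decide_eq_true_eq] at hv
      simp only [codeW]; omega

/-- the labels of control vertices -/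
def ctrlL (z : Lb) : Bool :=
  decide (z.1 < 4) || (decide (5 < z.1) && decide (z.1 < 11))

theorem ctrlL_code (v : V) : ctrlL (code v) = ctrl v := by
  rcases v with _ | _ | _ | _ | _ | _ | r | ⟨r, i, k⟩ | ⟨r, i, k⟩ | ⟨r, i, k⟩ | ⟨r, i, k⟩ |
    ⟨j, y | _ | _⟩ <;> simp [ctrlL, code, ctrl]

/-- adjacency for control tokens -/
def cLW (M : ARM) (z z' : Lb) : Bool :=
  (decide (z.1 < 14) && (decide (z'.1 < 14) && cL M z z')) ||
  (ctrlL z && (decide (z'.1 = 14) || decide (z'.1 = 15))) ||
  ((decide (z.1 = 14) || decide (z.1 = 15)) && (decide (z'.1 = 4) || decide (z'.1 = 5))) ||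
  (decide (z.1 = 15) && decide (z'.1 = 14))

/-- adjacency for register tokens -/
def rLW (z z' : Lb) : Bool :=
  (decide (z.1 < 14) && (decide (z'.1 < 14) && rL z z')) ||
  ((decide (10 < z.1) && decide (z.1 < 14)) && ((decide (z'.1 = 16) || decide (z'.1 = 17)) &&
    decide (z.2.1 = z'.2.1))) ||
  (decide (z.1 = 17) && (decide (z'.1 = 16) && decide (z.2.1 = z'.2.1)))

theorem cLW_code (M : ARM) (u v : W) : cLW M (codeW u) (codeW v) = cadjW M u v := by
  rcases u with u | _ | _ | i | i
  · have h1 := code_lt u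
    have h2 : (code u).1 ≠ 14 := by omega
    have h3 : (code u).1 ≠ 15 := by omega
    rcases v with v | _ | _ | i' | i'
    · have h1' := code_lt v
      have h2' : (code v).1 ≠ 14 := by omega
      have h3' : (code v).1 ≠ 15 := by omega
      simp [cLW, codeW, cadjW, h1, h2, h3, h1', h2', h3', cL_code]
    · simp [cLW, codeW, cadjW, h1, h2, h3, ctrlL_code]
    · simp [cLW, codeW, cadjW, h1, h2, h3, ctrlL_code]
    · simp [cLW, codeW, cadjW, h1, h2, h3]
    · simp [cLW, codeW, cadjW, h1, h2, h3]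
  · rcases v with v | _ | _ | i' | i'
    · rcases v with _ | _ | _ | _ | _ | _ | r | ⟨r, i, k⟩ | ⟨r, i, k⟩ | ⟨r, i, k⟩ | ⟨r, i, k⟩ |
        ⟨j, y | _ | _⟩ <;> simp [cLW, codeW, cadjW, ctrlL, code]
    · simp [cLW, codeW, cadjW, ctrlL]
    · simp [cLW, codeW, cadjW, ctrlL]
    · simp [cLW, codeW, cadjW, ctrlL]
    · simp [cLW, codeW, cadjW, ctrlL]
  · rcases v with v | _ | _ | i' | i'
    · rcases v with _ | _ | _ | _ | _ | _ | r | ⟨r, i, k⟩ | ⟨r, i, k⟩ | ⟨r, i, k⟩ | ⟨r, i, k⟩ |
        ⟨j, y | _ | _⟩ <;> simp [cLW, codeW, cadjW, ctrlL, code]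
    · simp [cLW, codeW, cadjW, ctrlL]
    · simp [cLW, codeW, cadjW, ctrlL]
    · simp [cLW, codeW, cadjW, ctrlL]
    · simp [cLW, codeW, cadjW, ctrlL]
  · rcases v with v | _ | _ | i' | i' <;> simp [cLW, codeW, cadjW, ctrlL]
  · rcases v with v | _ | _ | i' | i' <;> simp [cLW, codeW, cadjW, ctrlL]

theorem rLW_code (u v : W) : rLW (codeW u) (codeW v) = radjW u v := by
  rcases u with u | _ | _ | i | i
  · rcases v with v | _ | _ | i' | i'
    · have h1 := code_lt u
      have h1' := code_lt v
      have h2 : (code v).1 ≠ 16 := by omega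
      have h3 : (code v).1 ≠ 17 := by omega
      have h4 : (code u).1 ≠ 17 := by omega
      have h5 : radjW (.b u) (.b v) = radjV u v := by
        rcases u with _ | _ | _ | _ | _ | _ | r | ⟨r, i, k⟩ | ⟨r, i, k⟩ | ⟨r, i, k⟩ | ⟨r, i, k⟩ |
          ⟨j, y | _ | _⟩ <;> cases v <;> rfl
      rw [h5]
      simp [rLW, codeW, h1, h2, h3, h4, h1', rL_code]
    · rcases u with _ | _ | _ | _ | _ | _ | r | ⟨r, i, k⟩ | ⟨r, i, k⟩ | ⟨r, i, k⟩ | ⟨r, i, k⟩ |
        ⟨j, y | _ | _⟩ <;> simp [rLW, codeW, radjW, code]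
    · rcases u with _ | _ | _ | _ | _ | _ | r | ⟨r, i, k⟩ | ⟨r, i, k⟩ | ⟨r, i, k⟩ | ⟨r, i, k⟩ |
        ⟨j, y | _ | _⟩ <;> simp [rLW, codeW, radjW, code]
    · rcases u with _ | _ | _ | _ | _ | _ | r | ⟨r, i, k⟩ | ⟨r, i, k⟩ | ⟨r, i, k⟩ | ⟨r, i, k⟩ |
        ⟨j, y | _ | _⟩ <;> simp [rLW, codeW, radjW, code] <;> congr
    · rcases u with _ | _ | _ | _ | _ | _ | r | ⟨r, i, k⟩ | ⟨r, i, k⟩ | ⟨r, i, k⟩ | ⟨r, i, k⟩ |
        ⟨j, y | _ | _⟩ <;> simp [rLW, codeW, radjW, code] <;> congr
  · rcases v with v | _ | _ | i' | i' <;> simp [rLW, codeW, radjW]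
  · rcases v with v | _ | _ | i' | i' <;> simp [rLW, codeW, radjW]
  · rcases v with v | _ | _ | i' | i' <;> simp [rLW, codeW, radjW]
  · rcases v with v | _ | _ | i' | i'
    · have h1' := code_lt v
      have h2 : (code v).1 ≠ 16 := by omega
      simp [rLW, codeW, radjW, h2]
    · simp [rLW, codeW, radjW]
    · simp [rLW, codeW, radjW]
    · simp [rLW, codeW, radjW] <;> congr
    · simp [rLW, codeW, radjW]

/-! ### The instance -/

/-- Descriptions of Hit positions: the edges of the digraph, for each token type the list of the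
edges which tokens of this type may use, and the placement: for each vertex the type of the token
on it, or `none`.  The vertices are the numbers smaller than the length of the placement. -/
abbrev Hit : Type := List (ℕ × ℕ) × List (List (ℕ × ℕ)) × List (Option ℕ)

/-- The description is correct: the edges join distinct vertices, tokens use edges of the digraph,
and the types of the placed tokens exist. -/
def IsPosition (A : Hit) : Prop :=
  (∀ e ∈ A.1, e.1 < A.2.2.length ∧ e.2 < A.2.2.length ∧ e.1 ≠ e.2) ∧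
  (∀ l ∈ A.2.1, ∀ e ∈ l, e ∈ A.1) ∧ ∀ i, some i ∈ A.2.2 → i < A.2.1.length

/-- The moves of the game. -/
def Mv (A : Hit) : (ℕ → Option ℕ) → (ℕ → Option ℕ) → Prop :=
  HMove (fun i u v => (u, v) ∈ A.2.1.getD i [])

/-- The position which is described. -/
def start (A : Hit) : ℕ → Option ℕ := fun v => A.2.2.getD v none

/-- The player to move can force a win. -/
def MoverWins (A : Hit) : Prop := Forces (Mv A) true (start A)

/-- The other player can force a win. -/
def OtherWins (A : Hit) : Prop := Forces (Mv A) false (start A)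

/-- Neither player can force a win. -/
def Drawn (A : Hit) : Prop := ¬ MoverWins A ∧ ¬ OtherWins A

/-- the labels -/
abbrev vsW (M : ARM) : List Lb := vsG 18 okLW M

/-- the numbers -/
abbrev nuW (M : ARM) (v : W) : ℕ := nuG codeW 18 okLW M v

/-- The instance; the control token starts at the vertex with label `(c, 0, 0, 0)`. -/
def inst (c : ℕ) (M : ARM) : Hit :=
  (edg (vsW M) (cLW M) ++ edg (vsW M) rLW, [edg (vsW M) (cLW M), edg (vsW M) rLW],
    (vsW M).map (fun z => bif decide (z = (c, 0, 0, 0)) then some 0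
      else bif decide (z.1 = 11) && decide (z.2.2.1 = 0) then some 1 else none))

theorem inst_edges (c : ℕ) (M : ARM) (i x y : ℕ) : (x, y) ∈ (inst c M).2.1.getD i [] ↔
    ∃ u v, EW M i u v ∧ nuW M u = x ∧ nuW M v = y := by
  rcases i with _ | _ | i
  · simp only [inst, List.getD_cons_zero]
    rw [mem_edgG enc]
    constructor
    · rintro ⟨u, v, hu, hv, h, h1, h2⟩
      exact ⟨u, v, ⟨hu, hv, by rw [cLW_code] at h; exact h⟩, h1, h2⟩
    · rintro ⟨u, v, ⟨hu, hv, h⟩, h1, h2⟩
      exact ⟨u, v, hu, hv, by rw [cLW_code]; exact h, h1, h2⟩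
  · simp only [inst, List.getD_cons_succ, List.getD_cons_zero]
    rw [mem_edgG enc]
    constructor
    · rintro ⟨u, v, hu, hv, h, h1, h2⟩
      exact ⟨u, v, ⟨hu, hv, by rw [rLW_code] at h; exact h⟩, h1, h2⟩
    · rintro ⟨u, v, ⟨hu, hv, h⟩, h1, h2⟩
      exact ⟨u, v, hu, hv, by rw [rLW_code]; exact h, h1, h2⟩
  · simp only [inst, List.getD_cons_succ, List.getD_nil, List.not_mem_nil, false_iff]
    rintro ⟨u, v, ⟨hu, hv, h⟩, h1, h2⟩
    simp at h

theorem inst_start {c : ℕ} {M : ARM} {v0 : V} (hc : code v0 = (c, 0, 0, 0))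
    (v : W) (hv : okW M v = true) :
    start (inst c M) (nuW M v) = placeW (some (.b v0), lift (cf M fun _ => false)) v := by
  have h1 : start (inst c M) (nuW M v) = (fun z : Lb => bif decide (z = (c, 0, 0, 0)) then some 0
      else bif decide (z.1 = 11) && decide (z.2.2.1 = 0) then some 1 else none) (codeW v) :=
    map_getD enc _ none hv
  rw [h1]
  simp only
  by_cases h2 : v = .b v0
  · subst h2
    rw [placeW_zero rfl]
    simp [codeW, hc]
  · have h3 : codeW v ≠ (c, 0, 0, 0) := by
      rw [← hc]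
      exact fun h => h2 (codeW_inj h)
    rw [decide_eq_false h3, cond_false]
    by_cases h4 : ∀ j z, v = vx j z → lift (cf M (fun _ => false)) j ≠ some z
    · rw [placeW_of (fun h => h2 (Option.some.inj h).symm) h4]
      rcases v with v | _ | _ | i | i
      · rcases v with _ | _ | _ | _ | _ | _ | r | ⟨r, i, k⟩ | ⟨r, i, k⟩ | ⟨r, i, k⟩ | ⟨r, i, k⟩ |
          ⟨j, y | _ | _⟩ <;> simp [codeW, code]
        have h5 := h4 j (.y (.p y)) rfl
        rw [lift_of (cf_of (by simpa [okW, ok] using hv))] at h5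
        cases y
        · simp at h5
        · rfl
      · simp [codeW]
      · simp [codeW]
      · simp [codeW]
      · simp [codeW]
    · push Not at h4
      obtain ⟨j, z, rfl, h5⟩ := h4
      obtain ⟨y, h6, rfl⟩ := lift_eq h5
      have h7 := cf_eq h6
      subst h7
      rw [placeW_one (fun h => h2 (Option.some.inj h).symm) h5]
      simp [codeW, code, vx]

theorem inst_forces {c : ℕ} {M : ARM} (hM : M.1.length % 2 = 0) {v0 : V}
    (hc : code v0 = (c, 0, 0, 0)) (h0 : ctrl v0 = true) (hok : ok M v0 = true) (w : Bool) :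
    Forces (Mv (inst c M)) w (start (inst c M)) ↔
    Forces (SStep M) w (some v0, cf M fun _ => false) := by
  have hfull : Full M (cf M fun _ => false) := by
    intro j hj
    rw [cf_of hj]
    simp
  rw [same hM ⟨v0, cf M fun _ => false, h0, hok, hfull, rfl, rfl⟩ w]
  have hi : InvW (some (.b v0), lift (cf M fun _ => false)) := by
    intro j z h
    exact absurd (Option.some.inj h) (ctrl_vx h0 j z)
  rw [forces_placeW hi]
  symm
  refine transport (ok := fun v => okW M v = true) (f := nuW M) (fun i u v h => ⟨h.1, h.2.1⟩)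
    (fun u v => nuG_inj enc) (inst_edges c M) (inst_start hc) (fun v hv => ?_) (fun x hx => ?_)
  · refine placeW_of (fun h => hv ?_) (fun j z h => ?_)
    · rw [← Option.some.inj h]
      exact hok
    · subst h
      have : ¬ j < M.1.length := fun h => hv (okW_vx.2 h)
      simp [lift, cf, this]
  · exact map_getD_out enc _ none hx

theorem inst_isPosition (c : ℕ) (M : ARM) : IsPosition (inst c M) := by
  have hlen : (inst c M).2.2.length = (vsW M).length := by
    simp [inst]
  refine ⟨?_, ?_, ?_⟩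
  · rw [hlen]
    rintro ⟨x, y⟩ he
    simp only [inst, List.mem_append] at he
    rcases he with he | he
    · obtain ⟨u, v, hu, hv, h, rfl, rfl⟩ := (mem_edgG enc).1 he
      refine ⟨nuG_lt enc hu, nuG_lt enc hv, fun h2 => ?_⟩
      have h3 := nuG_inj enc hu hv h2
      rw [cLW_code] at h
      exact cadjW_ne h h3
    · obtain ⟨u, v, hu, hv, h, rfl, rfl⟩ := (mem_edgG enc).1 he
      refine ⟨nuG_lt enc hu, nuG_lt enc hv, fun h2 => ?_⟩
      have h3 := nuG_inj enc hu hv h2
      rw [rLW_code] at h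
      obtain ⟨j, z, z', rfl, h5, h6⟩ := radjW_rv h
      rw [h5] at h3
      exact radjZ_ne h6 (vx_inj h3).2
  · intro l hl e he
    simp only [inst, List.mem_cons, List.not_mem_nil, or_false] at hl
    rcases hl with rfl | rfl
    · exact List.mem_append_left _ he
    · exact List.mem_append_right _ he
  · intro i hi
    simp only [inst, List.mem_map] at hi
    obtain ⟨z, -, hz⟩ := hi
    show i < 2
    revert hz
    cases decide (z = (c, 0, 0, 0)) <;> cases (decide (z.1 = 11) && decide (z.2.2.1 = 0)) <;>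
      simp <;> omega

/-! ### Polynomial time -/

theorem poly_okLW : NPC.Poly (fun p : ARM × Lb => okLW p.1 p.2) := by
  have h : NPC.Poly (fun p : ARM × Lb => okL p.1 p.2) :=
    poly_okL (M := fun p : ARM × Lb => p.1) (z := fun p => p.2) (by fun_prop) (by fun_prop)
  unfold okLW
  fun_prop

theorem poly_inst (c : ℕ) : NPC.Poly (fun M : ARM => inst c M) := by
  have h0 := poly_vsG 18 poly_okLW
  have h1 : NPC.Poly (fun M : ARM => edg (vsW M) (cLW M)) := by
    refine poly_edgG poly_okLW (t := fun M => cLW M) ?_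
    have h : NPC.Poly (fun p : ARM × (Lb × Lb) => cL p.1 p.2.1 p.2.2) :=
      poly_cL (M := fun p : ARM × (Lb × Lb) => p.1) (z := fun p => p.2.1)
        (z' := fun p => p.2.2) (by fun_prop) (by fun_prop) (by fun_prop)
    unfold cLW ctrlL
    fun_prop
  have h2 : NPC.Poly (fun M : ARM => edg (vsW M) rLW) := by
    refine poly_edgG poly_okLW (t := fun _ => rLW) ?_
    have h : NPC.Poly (fun p : ARM × (Lb × Lb) => rL p.2.1 p.2.2) :=
      poly_rL (z := fun p : ARM × (Lb × Lb) => p.2.1) (z' := fun p => p.2.2) (by fun_prop)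
        (by fun_prop)
    unfold rLW
    fun_prop
  unfold inst
  fun_prop

end Pool.Agent.NPC.Q328.HIT
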