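import Pool.Agent.H578R2.ANN.Rej

/-!
# Hit: the game and the board of an alternating register machine

The board is the one for Annihilation, with two more vertices for the control token and two more
vertices for each register token.
-/

set_option autoImplicit false

namespace Pool.Agent.NPC.Q328.HIT

open Pool.Agent.NPC.ANN Pool.Agent.H820R2.SS

/-- A move of Hit.  A position assigns to every vertex the type of the token on it, or `none`;
`E i u v` says that tokens of type `i` may use the edge `(u, v)`.  A token of type `i` is slid from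
`u` to `v`; a token on `v` is removed. -/
def HMove {V : Type} [DecidableEq V] (E : ℕ → V → V → Prop) (P Q : V → Option ℕ) : Prop :=
  ∃ (i : ℕ) (u v : V), P u = some i ∧ E i u v ∧
    Q = Function.update (Function.update P u none) v (some i)

/-- Games with the same outcomes, up to losing moves. -/
theorem forces_upto {α β : Type} {mv : α → α → Prop} {mv' : β → β → Prop} {R : α → β → Prop}
    (h1 : ∀ a b, R a b → ∀ a', mv a a' → Forces mv true a' ∨
      ∃ b', mv' b b' ∧ (R a' b' ∨ (Forces mv false a' ∧ Forces mv' false b')))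
    (h2 : ∀ a b, R a b → ∀ b', mv' b b' → Forces mv' true b' ∨
      ∃ a', mv a a' ∧ (R a' b' ∨ (Forces mv false a' ∧ Forces mv' false b')))
    {w : Bool} {a : α} {b : β} (hab : R a b) (h : Forces mv w a) : Forces mv' w b := by
  induction h generalizing b with
  | @win p q h hq ih =>
    rcases h1 _ _ hab _ h with h3 | ⟨b', h3, h4 | h4⟩
    · exact absurd h3 hq.not_both
    · exact .win h3 (ih h4)
    · exact .win h3 h4.2
  | @lose p h ih =>
    refine .lose fun b' hb' => ?_
    rcases h2 _ _ hab _ hb' with h3 | ⟨a', h3, h4 | h4⟩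
    · exact h3
    · exact ih a' h3 h4
    · exact absurd (h _ h3) h4.1.not_both

theorem forces_upto_iff {α β : Type} {mv : α → α → Prop} {mv' : β → β → Prop} {R : α → β → Prop}
    (h1 : ∀ a b, R a b → ∀ a', mv a a' → Forces mv true a' ∨
      ∃ b', mv' b b' ∧ (R a' b' ∨ (Forces mv false a' ∧ Forces mv' false b')))
    (h2 : ∀ a b, R a b → ∀ b', mv' b b' → Forces mv' true b' ∨
      ∃ a', mv a a' ∧ (R a' b' ∨ (Forces mv false a' ∧ Forces mv' false b')))
    {w : Bool} {a : α} {b : β} (hab : R a b) : Forces mv w a ↔ Forces mv' w b := by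
  refine ⟨forces_upto h1 h2 hab, forces_upto (R := fun b a => R a b) ?_ ?_ hab⟩
  · intro b a h b' hb'
    rcases h2 a b h b' hb' with h3 | ⟨a', h3, h4 | h4⟩
    · exact Or.inl h3
    · exact Or.inr ⟨a', h3, Or.inl h4⟩
    · exact Or.inr ⟨a', h3, Or.inr h4.symm⟩
  · intro b a h a' ha'
    rcases h1 a b h a' ha' with h3 | ⟨b', h3, h4 | h4⟩
    · exact Or.inl h3
    · exact Or.inr ⟨b', h3, Or.inl h4⟩
    · exact Or.inr ⟨b', h3, Or.inr h4.symm⟩

/-- Positions of a register token in its region. -/
inductive Z : Type
  | y (y : Y)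
  | r0
  | r1
  deriving DecidableEq

/-- Vertices. -/
inductive W : Type
  | b (v : V)
  | e2 | e3
  | r0 (j : ℕ)
  | r1 (j : ℕ)
  deriving DecidableEq

/-- the vertex of a register token -/
def vx (j : ℕ) : Z → W
  | .y y => .b (.reg j y)
  | .r0 => .r0 j
  | .r1 => .r1 j

/-- the place of a vertex in a region -/
def rv : W → Option (ℕ × Z)
  | .b (.reg j y) => some (j, .y y)
  | .r0 j => some (j, .r0)
  | .r1 j => some (j, .r1)
  | _ => none

theorem rv_vx (j : ℕ) (z : Z) : rv (vx j z) = some (j, z) := by
  cases z <;> rfl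

theorem rv_eq {v : W} {j : ℕ} {z : Z} (h : rv v = some (j, z)) : v = vx j z := by
  rcases v with v | _ | _ | i | i
  · cases v <;> simp [rv] at h
    obtain ⟨rfl, rfl⟩ := h
    rfl
  · simp [rv] at h
  · simp [rv] at h
  · simp only [rv, Option.some.injEq, Prod.mk.injEq] at h
    obtain ⟨rfl, rfl⟩ := h
    rfl
  · simp only [rv, Option.some.injEq, Prod.mk.injEq] at h
    obtain ⟨rfl, rfl⟩ := h
    rfl

theorem vx_inj {j j' : ℕ} {z z' : Z} (h : vx j z = vx j' z') : j = j' ∧ z = z' := by
  have h1 := rv_vx j z
  rw [h, rv_vx] at h1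
  have := Option.some.inj h1
  simp only [Prod.mk.injEq] at this
  exact ⟨this.1.symm, this.2.symm⟩

/-- the vertices which are used -/
def okW (M : ARM) : W → Bool
  | .b v => ok M v
  | .r0 j => decide (j < M.1.length)
  | .r1 j => decide (j < M.1.length)
  | _ => true

theorem okW_vx {M : ARM} {j : ℕ} {z : Z} : okW M (vx j z) = true ↔ j < M.1.length := by
  cases z <;> simp [okW, vx, ok]

/-- edges of the control token -/
def cadjW (M : ARM) : W → W → Bool
  | .b u, .b v => cadj M u v
  | .b u, .e2 => ctrl u
  | .b u, .e3 => ctrl u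
  | .e2, .b .e0 => true
  | .e2, .b .e1 => true
  | .e3, .b .e0 => true
  | .e3, .b .e1 => true
  | .e3, .e2 => true
  | _, _ => false

/-- moves of a register token -/
def radjZ : Z → Z → Bool
  | .y y, .y y' => radj y y'
  | .y _, .r0 => true
  | .y _, .r1 => true
  | .r1, .r0 => true
  | _, _ => false

/-- edges of register tokens -/
def radjW : W → W → Bool
  | .b (.reg j y), .b (.reg j' y') => decide (j = j') && radj y y'
  | .b (.reg j _), .r0 j' => decide (j = j')
  | .b (.reg j _), .r1 j' => decide (j = j')
  | .r1 j, .r0 j' => decide (j = j')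
  | _, _ => false

theorem radjW_vx (j j' : ℕ) (z z' : Z) :
    radjW (vx j z) (vx j' z') = (decide (j = j') && radjZ z z') := by
  cases z <;> cases z' <;> simp [radjW, vx, radjZ]

theorem radjW_rv {u v : W} (h : radjW u v = true) :
    ∃ j z z', u = vx j z ∧ v = vx j z' ∧ radjZ z z' = true := by
  rcases u with u | _ | _ | i | i
  · cases u with
    | reg j y =>
      rcases v with v | _ | _ | i | i
      · cases v with
        | reg j' y' =>
          simp only [radjW, Bool.and_eq_true, decide_eq_true_eq] at h
          obtain ⟨rfl, h⟩ := h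
          exact ⟨j, .y y, .y y', rfl, rfl, h⟩
        | _ => simp [radjW] at h
      · simp [radjW] at h
      · simp [radjW] at h
      · simp only [radjW, decide_eq_true_eq] at h
        subst h
        exact ⟨j, .y y, .r0, rfl, rfl, rfl⟩
      · simp only [radjW, decide_eq_true_eq] at h
        subst h
        exact ⟨j, .y y, .r1, rfl, rfl, rfl⟩
    | _ => simp [radjW] at h
  · simp [radjW] at h
  · simp [radjW] at h
  · simp [radjW] at h
  · rcases v with v | _ | _ | i' | i'
    · simp [radjW] at h
    · simp [radjW] at h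
    · simp [radjW] at h
    · simp only [radjW, decide_eq_true_eq] at h
      subst h
      exact ⟨i, .r1, .r0, rfl, rfl, rfl⟩
    · simp [radjW] at h

/-- The edges of tokens of type `i`. -/
def EW (M : ARM) (i : ℕ) (u v : W) : Prop :=
  okW M u = true ∧ okW M v = true ∧
    (bif decide (i = 0) then cadjW M u v else decide (i = 1) && radjW u v) = true

/-- Abstract positions: place of the control token, places of the register tokens. -/
abbrev StW : Type := Option W × (ℕ → Option Z)

/-- The position on the board. -/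
def placeW (s : StW) (v : W) : Option ℕ :=
  if s.1 = some v then some 0 else
    match rv v with
    | some (j, z) => if s.2 j = some z then some 1 else none
    | none => none

/-- Moves between abstract positions. -/
inductive SH (M : ARM) : StW → StW → Prop
  | ctl {v v' : W} {ρ : ℕ → Option Z} (h1 : okW M v = true) (h2 : okW M v' = true)
      (h : cadjW M v v' = true) (hf : ∀ j z, v' = vx j z → ρ j ≠ some z) :
      SH M (some v, ρ) (some v', ρ)
  | cap {v : W} {j : ℕ} {z : Z} {ρ : ℕ → Option Z} (h1 : okW M v = true) (h2 : j < M.1.length)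
      (h : cadjW M v (vx j z) = true) (ho : ρ j = some z) :
      SH M (some v, ρ) (some (vx j z), Function.update ρ j none)
  | rg {c : Option W} {j : ℕ} {z z' : Z} {ρ : ℕ → Option Z} (hj : j < M.1.length)
      (h : radjZ z z' = true) (ho : ρ j = some z) (hc : c ≠ some (vx j z')) :
      SH M (c, ρ) (c, Function.update ρ j (some z'))
  | rcap {j : ℕ} {z z' : Z} {ρ : ℕ → Option Z} (hj : j < M.1.length)
      (h : radjZ z z' = true) (ho : ρ j = some z) :
      SH M (some (vx j z'), ρ) (none, Function.update ρ j (some z'))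

/-- no vertex holds two tokens -/
def InvW (s : StW) : Prop := ∀ j z, s.1 = some (vx j z) → s.2 j ≠ some z

theorem radjZ_ne {z z' : Z} (h : radjZ z z' = true) : z ≠ z' := by
  rintro rfl
  cases z with
  | y y => exact radj_ne h rfl
  | _ => simp [radjZ] at h

theorem cadjW_ne {M : ARM} {v v' : W} (h : cadjW M v v' = true) : v ≠ v' := by
  rintro rfl
  cases v with
  | b v => exact cadj_ne h rfl
  | _ => simp [cadjW] at h

theorem SH.inv {M : ARM} {s s' : StW} (h : SH M s s') (hs : InvW s) : InvW s' := by
  cases h with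
  | ctl h1 h2 h hf =>
    intro j z hj
    exact hf j z (Option.some.inj hj)
  | @cap v j z ρ h1 h2 h ho =>
    intro j' z' hj
    obtain ⟨rfl, rfl⟩ := vx_inj (Option.some.inj hj)
    simp
  | @rg c j z z' ρ hj h ho hc =>
    intro j' z'' h1
    simp only [Function.update_apply]
    split_ifs with h2
    · subst h2
      intro h3
      rw [Option.some.inj h3] at hc
      exact hc h1
    · exact hs j' z'' h1
  | rcap hj h ho =>
    intro j z h1
    simp at h1

/-! ### Abstract positions and positions on the board -/

theorem placeW_vx (s : StW) (j : ℕ) (z : Z) : placeW s (vx j z) =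
    if s.1 = some (vx j z) then some 0 else if s.2 j = some z then some 1 else none := by
  unfold placeW
  rw [rv_vx]

theorem placeW_of {s : StW} {v : W} (h : s.1 ≠ some v) (h2 : ∀ j z, v = vx j z → s.2 j ≠ some z) :
    placeW s v = none := by
  unfold placeW
  rw [if_neg h]
  cases hr : rv v with
  | none => rfl
  | some p =>
    obtain ⟨j, z⟩ := p
    exact if_neg (h2 j z (rv_eq hr))

theorem placeW_zero {s : StW} {v : W} (h : s.1 = some v) : placeW s v = some 0 := by
  unfold placeW
  rw [if_pos h]

theorem placeW_one {s : StW} {j : ℕ} {z : Z} (h : s.1 ≠ some (vx j z)) (h2 : s.2 j = some z) :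
    placeW s (vx j z) = some 1 := by
  rw [placeW_vx, if_neg h, if_pos h2]

theorem placeW_cases {s : StW} {v : W} {i : ℕ} (h : placeW s v = some i) :
    (i = 0 ∧ s.1 = some v) ∨ (i = 1 ∧ s.1 ≠ some v ∧ ∃ j z, v = vx j z ∧ s.2 j = some z) := by
  by_cases h1 : s.1 = some v
  · left
    rw [placeW_zero h1] at h
    exact ⟨(Option.some.inj h).symm, h1⟩
  · right
    by_cases h2 : ∀ j z, v = vx j z → s.2 j ≠ some z
    · rw [placeW_of h1 h2] at h
      exact absurd h (by simp)
    · push Not at h2
      obtain ⟨j, z, rfl, h3⟩ := h2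
      rw [placeW_one h1 h3] at h
      exact ⟨(Option.some.inj h).symm, h1, j, z, rfl, h3⟩

theorem placeW_congr {s s' : StW} {w : W} (h : s.1 = some w ↔ s'.1 = some w)
    (h2 : ∀ j z, w = vx j z → (s.2 j = some z ↔ s'.2 j = some z)) : placeW s w = placeW s' w := by
  unfold placeW
  simp only [h]
  cases hr : rv w with
  | none => rfl
  | some p =>
    obtain ⟨j, z⟩ := p
    simp only [h2 j z (rv_eq hr)]

theorem upd_ctl {v v' : W} {ρ : ℕ → Option Z} (hne : v ≠ v')
    (hi : ∀ j z, v = vx j z → ρ j ≠ some z) (hf : ∀ j z, v' = vx j z → ρ j ≠ some z) :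
    placeW (some v', ρ) = Function.update (Function.update (placeW (some v, ρ)) v none) v'
      (some 0) := by
  funext w
  simp only [Function.update_apply]
  by_cases hw : w = v'
  · rw [if_pos hw, hw]
    exact placeW_zero rfl
  · rw [if_neg hw]
    by_cases hw2 : w = v
    · rw [if_pos hw2, hw2]
      exact placeW_of (fun h => hne (Option.some.inj h).symm) hi
    · rw [if_neg hw2]
      refine placeW_congr ?_ (fun j z _ => Iff.rfl)
      simp only [Option.some.injEq]
      exact ⟨fun h => absurd h.symm hw, fun h => absurd h.symm hw2⟩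

theorem upd_cap {v : W} {j : ℕ} {z : Z} {ρ : ℕ → Option Z} (hne : v ≠ vx j z)
    (hi : ∀ j z, v = vx j z → ρ j ≠ some z) (ho : ρ j = some z) :
    placeW (some (vx j z), Function.update ρ j none) =
      Function.update (Function.update (placeW (some v, ρ)) v none) (vx j z) (some 0) := by
  funext w
  simp only [Function.update_apply]
  by_cases hw : w = vx j z
  · rw [if_pos hw, hw]
    exact placeW_zero rfl
  · rw [if_neg hw]
    by_cases hw2 : w = v
    · rw [if_pos hw2, hw2]
      refine placeW_of (fun h => hne (Option.some.inj h).symm) (fun j' z' h => ?_)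
      simp only [Function.update_apply]
      split_ifs
      · simp
      · exact hi j' z' h
    · rw [if_neg hw2]
      refine placeW_congr ?_ (fun j' z' h => ?_)
      · simp only [Option.some.injEq]
        exact ⟨fun h => absurd h.symm hw, fun h => absurd h.symm hw2⟩
      · simp only [Function.update_apply]
        split_ifs with h3
        · subst h3
          rw [ho]
          simp only [Option.some.injEq, reduceCtorEq, false_iff]
          rintro rfl
          exact hw h
        · exact Iff.rfl

theorem upd_rg {c : Option W} {j : ℕ} {z z' : Z} {ρ : ℕ → Option Z} (hne : z ≠ z')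
    (ho : ρ j = some z) (hc : c ≠ some (vx j z')) (hc2 : c ≠ some (vx j z)) :
    placeW (c, Function.update ρ j (some z')) =
      Function.update (Function.update (placeW (c, ρ)) (vx j z) none) (vx j z') (some 1) := by
  funext w
  simp only [Function.update_apply]
  by_cases hw : w = vx j z'
  · rw [if_pos hw, hw]
    exact placeW_one hc (by simp)
  · rw [if_neg hw]
    by_cases hw2 : w = vx j z
    · rw [if_pos hw2, hw2]
      refine placeW_of hc2 (fun j' z'' h => ?_)
      obtain ⟨rfl, rfl⟩ := vx_inj h
      simp only [Function.update_self]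
      exact fun h => hne (Option.some.inj h).symm
    · rw [if_neg hw2]
      refine placeW_congr Iff.rfl (fun j' z'' h => ?_)
      simp only [Function.update_apply]
      split_ifs with h3
      · subst h3
        rw [ho]
        simp only [Option.some.injEq]
        exact ⟨fun h4 => absurd (by rw [h, h4]) hw, fun h4 => absurd (by rw [h, h4]) hw2⟩
      · exact Iff.rfl

theorem upd_rcap {j : ℕ} {z z' : Z} {ρ : ℕ → Option Z} (hne : z ≠ z') (ho : ρ j = some z) :
    placeW (none, Function.update ρ j (some z')) =
      Function.update (Function.update (placeW (some (vx j z'), ρ)) (vx j z) none) (vx j z')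
        (some 1) := by
  funext w
  simp only [Function.update_apply]
  by_cases hw : w = vx j z'
  · rw [if_pos hw, hw]
    exact placeW_one (by simp) (by simp)
  · rw [if_neg hw]
    by_cases hw2 : w = vx j z
    · rw [if_pos hw2, hw2]
      refine placeW_of (by simp) (fun j' z'' h => ?_)
      obtain ⟨rfl, rfl⟩ := vx_inj h
      simp only [Function.update_self]
      exact fun h => hne (Option.some.inj h).symm
    · rw [if_neg hw2]
      refine placeW_congr ?_ (fun j' z'' h => ?_)
      · simp only [Option.some.injEq, reduceCtorEq, false_iff]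
        exact fun h => hw h.symm
      · simp only [Function.update_apply]
        split_ifs with h3
        · subst h3
          rw [ho]
          simp only [Option.some.injEq]
          exact ⟨fun h4 => absurd (by rw [h, h4]) hw, fun h4 => absurd (by rw [h, h4]) hw2⟩
        · exact Iff.rfl

theorem EW_zero {M : ARM} {u v : W} : EW M 0 u v ↔
    okW M u = true ∧ okW M v = true ∧ cadjW M u v = true := Iff.rfl

theorem EW_one {M : ARM} {u v : W} : EW M 1 u v ↔
    okW M u = true ∧ okW M v = true ∧ radjW u v = true := Iff.rfl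

theorem placeW_step {M : ARM} {s s' : StW} (hs : InvW s) (h : SH M s s') :
    HMove (EW M) (placeW s) (placeW s') := by
  cases h with
  | @ctl v v' ρ h1 h2 h hf =>
    exact ⟨0, v, v', placeW_zero rfl, ⟨h1, h2, h⟩,
      upd_ctl (cadjW_ne h) (fun j z hv => hs j z (by rw [hv])) hf⟩
  | @cap v j z ρ h1 h2 h ho =>
    exact ⟨0, v, vx j z, placeW_zero rfl, ⟨h1, okW_vx.2 h2, h⟩,
      upd_cap (cadjW_ne h) (fun j z hv => hs j z (by rw [hv])) ho⟩
  | @rg c j z z' ρ hj h ho hc =>
    have hc2 : c ≠ some (vx j z) := fun h => hs j z h ho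
    refine ⟨1, vx j z, vx j z', placeW_one hc2 ho, ⟨okW_vx.2 hj, okW_vx.2 hj, ?_⟩,
      upd_rg (radjZ_ne h) ho hc hc2⟩
    simp [radjW_vx, h]
  | @rcap j z z' ρ hj h ho =>
    refine ⟨1, vx j z, vx j z', placeW_one ?_ ho, ⟨okW_vx.2 hj, okW_vx.2 hj, ?_⟩,
      upd_rcap (radjZ_ne h) ho⟩
    · intro h'
      exact radjZ_ne h (vx_inj (Option.some.inj h')).2.symm
    · simp [radjW_vx, h]

theorem placeW_move {M : ARM} {s : StW} {Q : W → Option ℕ} (hs : InvW s)
    (h : HMove (EW M) (placeW s) Q) : ∃ s', SH M s s' ∧ Q = placeW s' := by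
  obtain ⟨i, u, v, h1, h2, h3⟩ := h
  obtain ⟨c, ρ⟩ := s
  rcases placeW_cases h1 with ⟨rfl, hc⟩ | ⟨rfl, hc, j, z, rfl, ho⟩
  · simp only at hc
    subst hc
    rw [EW_zero] at h2
    obtain ⟨h4, h5, h6⟩ := h2
    have hi : ∀ j z, u = vx j z → ρ j ≠ some z := fun j z hv => hs j z (by rw [hv])
    by_cases hf : ∀ j z, v = vx j z → ρ j ≠ some z
    · exact ⟨_, .ctl h4 h5 h6 hf, by rw [h3, upd_ctl (cadjW_ne h6) hi hf]⟩
    · push Not at hf
      obtain ⟨j, z, rfl, ho⟩ := hf
      exact ⟨_, .cap h4 (okW_vx.1 h5) h6 ho, by rw [h3, upd_cap (cadjW_ne h6) hi ho]⟩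
  · simp only at hc ho
    rw [EW_one] at h2
    obtain ⟨h4, h5, h6⟩ := h2
    obtain ⟨j', z1, z', h7, rfl, h8⟩ := radjW_rv h6
    obtain ⟨rfl, rfl⟩ := vx_inj h7
    by_cases hc' : c = some (vx j z')
    · subst hc'
      exact ⟨_, .rcap (okW_vx.1 h5) h8 ho, by rw [h3, upd_rcap (radjZ_ne h8) ho]⟩
    · exact ⟨_, .rg (okW_vx.1 h5) h8 ho hc', by rw [h3, upd_rg (radjZ_ne h8) ho hc' hc]⟩

/-- The outcomes of abstract positions. -/
theorem forces_placeW {M : ARM} {s : StW} (hs : InvW s) {w : Bool} :
    Forces (SH M) w s ↔ Forces (HMove (EW M)) w (placeW s) := by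
  refine Forces.bisim_iff (R := fun s P => InvW s ∧ P = placeW s) ?_ ?_ ⟨hs, rfl⟩
  · rintro a _ ⟨ha, rfl⟩ a' h
    exact ⟨_, placeW_step ha h, h.inv ha, rfl⟩
  · rintro a _ ⟨ha, rfl⟩ b' h
    obtain ⟨s', h1, rfl⟩ := placeW_move ha h
    exact ⟨s', h1, h1.inv ha, rfl⟩

end Pool.Agent.NPC.Q328.HIT
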