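import Pool.Agent.Q328.HIT.Exp

/-!
# Hit: the lower bound, for every number of token types
-/

set_option autoImplicit false

namespace Pool.Agent.NPC.Q328.HIT

open Pool.Agent.NPC Pool.Agent.NPC.ANN Pool.Agent.H820R2.SS Pool.Agent.NPC.Q328.TG

/-- additional token types which cannot use any edge -/
def pad (t : ℕ) (A : Hit) : Hit := (A.1, A.2.1 ++ List.replicate (t - A.2.1.length) [], A.2.2)

theorem pad_getD (t : ℕ) (A : Hit) (i : ℕ) : (pad t A).2.1.getD i [] = A.2.1.getD i [] := by
  unfold pad
  simp only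
  by_cases hi : i < A.2.1.length
  · rw [List.getD_append _ _ _ _ hi]
  · rw [List.getD_append_right _ _ _ _ (by omega), List.getD_eq_default A.2.1 _ (by omega)]
    by_cases h : i - A.2.1.length < t - A.2.1.length
    · rw [List.getD_eq_getElem _ _ (by simpa using h)]
      simp
    · rw [List.getD_eq_default _ _ (by simpa using h)]

theorem pad_mv (t : ℕ) (A : Hit) : Mv (pad t A) = Mv A := by
  unfold Mv
  simp only [pad_getD]

theorem pad_forces (t : ℕ) (A : Hit) (w : Bool) :
    Forces (Mv (pad t A)) w (start (pad t A)) ↔ Forces (Mv A) w (start A) := by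
  rw [pad_mv]
  rfl

theorem pad_pos {t : ℕ} {A : Hit} (hA : IsPosition A) : IsPosition (pad t A) := by
  obtain ⟨h1, h3, h4⟩ := hA
  refine ⟨h1, ?_, ?_⟩
  · intro l hl e he
    unfold pad at hl
    simp only [List.mem_append, List.mem_replicate] at hl
    rcases hl with hl | ⟨_, rfl⟩
    · exact h3 l hl e he
    · simp at he
  · intro i hi
    have := h4 i hi
    unfold pad
    simp only [List.length_append]
    omega

theorem pad_length {t : ℕ} {A : Hit} (h : A.2.1.length ≤ t) : (pad t A).2.1.length = t := by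
  unfold pad
  simp only [List.length_append, List.length_replicate]
  omega

theorem poly_pad (t : ℕ) : NPC.Poly (pad t) := by
  unfold pad
  have h1 : NPC.Poly (fun A : Hit => t - A.2.1.length) := by fun_prop
  have h2 : NPC.Poly (fun A : Hit => List.replicate (t - A.2.1.length) ([] : List (ℕ × ℕ))) :=
    Pool.Agent.H623R2.PS.poly_replicate (UPoly.of_le h1 (UPoly.const t)
      (fun _ => Nat.sub_le _ _)) []
  fun_prop

/-- the instance for the machine with doubled registers -/
def insD (t c : ℕ) (M : ARM) : Hit := pad t (inst c (TG.dbl M))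

theorem poly_insD (t c : ℕ) : NPC.Poly (insD t c) :=
  (poly_pad t).comp ((poly_inst c).comp poly_dbl)

/-- Hardness for every number of token types. -/
theorem hard_of {W : Hit → Prop} (hW : W = MoverWins ∨ W = OtherWins ∨ W = Drawn) {t : ℕ}
    (ht : 2 ≤ t) {q : Hit → Bool} (hq : ∀ A : Hit, A.2.1.length = t → q A = true)
    {L : Set (List Bool)} (hL : InEXPTIME L) :
    Reduces L (lang (fun A : Hit => IsPosition A ∧ q A = true ∧ W A)) := by
  have hlen : ∀ c M, (insD t c M).2.1.length = t := fun c M => pad_length (by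
    have : (inst c (TG.dbl M)).2.1.length = 2 := rfl
    omega)
  have hfo : ∀ {c : ℕ} {v0 : V}, code v0 = (c, 0, 0, 0) → ctrl v0 = true →
      (∀ M, ANN.ok M v0 = true) → ∀ (M : ARM) (w : Bool), Forces (Mv (insD t c M)) w
      (start (insD t c M)) ↔ Forces (SStep (TG.dbl M)) w (some v0, cf (TG.dbl M) fun _ => false) :=
    fun {c v0} h1 h2 h3 M w => by
      rw [insD, pad_forces, inst_forces (dbl_even M) h1 h2 (h3 _)]
  rcases hW with rfl | rfl | rfl
  · obtain ⟨f, h1, h2, h3⟩ := ARM578.exptime_arm (L := L) hL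
    refine ⟨fun x => bits (insD t 0 (f x)),
      PC.toPolyTime_bits (poly_insD t 0) f h1, fun x => ?_⟩
    rw [bits_mem_lang]
    have hp : IsPosition (insD t 0 (f x)) := pad_pos (t := t) (inst_isPosition 0 (TG.dbl (f x)))
    rw [and_iff_right hp, and_iff_right (hq _ (hlen _ _)), MoverWins,
      hfo (v0 := .G) rfl rfl (fun _ => rfl), h3 x]
    exact (win_G (dbl_pr (h2 x)) _).symm
  · obtain ⟨f, h1, h2, h3⟩ := ARM578.exptime_arm (L := L) hL
    refine ⟨fun x => bits (insD t 1 (f x)),
      PC.toPolyTime_bits (poly_insD t 1) f h1, fun x => ?_⟩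
    rw [bits_mem_lang]
    have hp : IsPosition (insD t 1 (f x)) := pad_pos (t := t) (inst_isPosition 1 (TG.dbl (f x)))
    rw [and_iff_right hp, and_iff_right (hq _ (hlen _ _)), OtherWins,
      hfo (v0 := .I) rfl rfl (fun _ => rfl), h3 x]
    exact (lose_I (dbl_pr (h2 x)) _).symm
  · obtain ⟨f, h1, h2, h3⟩ := ARM578.exptime_arm_compl (L := L) hL
    refine ⟨fun x => bits (insD t 0 (f x)),
      PC.toPolyTime_bits (poly_insD t 0) f h1, fun x => ?_⟩
    rw [bits_mem_lang]
    have hp : IsPosition (insD t 0 (f x)) := pad_pos (t := t) (inst_isPosition 0 (TG.dbl (f x)))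
    rw [and_iff_right hp, and_iff_right (hq _ (hlen _ _)), Drawn, MoverWins, OtherWins,
      hfo (v0 := .G) rfl rfl (fun _ => rfl), hfo (v0 := .G) rfl rfl (fun _ => rfl)]
    have h4 := h3 x
    have h5 : Forces (SStep (TG.dbl (f x))) true (some .G, cf (TG.dbl (f x)) fun _ => false) ↔
        ARMAcc (f x) := win_G (dbl_pr (h2 x)) (fun _ => false)
    rw [h5, ← h4, not_not]
    exact ⟨fun h => ⟨h, fun h' => not_lose_G _ h'⟩, fun h => h.1⟩

end Pool.Agent.NPC.Q328.HIT
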