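import Pool.Agent.Q328.HIT.Game

/-!
# Hit: positions with the control token out of play

Values: a register token has value 2 at `p` and at `t`, value 3 at `q`, value 1 at `r1`, value 0 at
`r0`; the control token has value 2 in a region without register token, and value `i` at `ei`.  The
other player wins iff the nim-sum of all values is zero.  `a1`, `c1` are the high bits, `a0`, `c0` the
low bits.
-/

set_option autoImplicit false

namespace Pool.Agent.NPC.Q328.HIT

open Pool.Agent.NPC.ANN Pool.Agent.H820R2.SS Finset

/-- high bit -/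
def a1 : Option Z → ℕ
  | some (.y _) => 1
  | _ => 0

/-- low bit -/
def a0 : Option Z → ℕ
  | some (.y .q) => 1
  | some .r1 => 1
  | _ => 0

/-- potential -/
def ph : Option Z → ℕ
  | some (.y (.p _)) => 3
  | some (.y .q) => 4
  | some (.y .t) => 2
  | some .r1 => 1
  | _ => 0

/-- high bit -/
def c1 : Option W → ℕ
  | some (.b (.reg _ _)) => 1
  | some .e2 => 1
  | some .e3 => 1
  | _ => 0

/-- low bit -/
def c0 : Option W → ℕ
  | some (.b .e1) => 1
  | some .e3 => 1
  | _ => 0

/-- potential -/
def pc : Option W → ℕ
  | some (.b (.reg _ _)) => 3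
  | some .e3 => 3
  | some .e2 => 2
  | some (.b .e1) => 1
  | _ => 0

/-- sums over the registers -/
def smZ (w : Option Z → ℕ) (n : ℕ) (ρ : ℕ → Option Z) : ℕ := ∑ j ∈ range n, w (ρ j)

theorem smZ_update (w : Option Z → ℕ) {n j : ℕ} (hj : j < n) (ρ : ℕ → Option Z) (y : Option Z) :
    smZ w n (Function.update ρ j y) + w (ρ j) = smZ w n ρ + w y := by
  unfold smZ
  have h1 := Finset.sum_erase_add (range n) (fun i => w (ρ i)) (mem_range.2 hj)
  have h2 := Finset.sum_erase_add (range n) (fun i => w (Function.update ρ j y i))
    (mem_range.2 hj)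
  have h3 : ∑ i ∈ (range n).erase j, w (Function.update ρ j y i) =
      ∑ i ∈ (range n).erase j, w (ρ i) := by
    refine Finset.sum_congr rfl fun i hi => ?_
    rw [Function.update_of_ne (Finset.ne_of_mem_erase hi)]
  simp only [Function.update_self] at h2
  rw [← h1, ← h2, h3]
  ring

/-- the control token is out of play -/
def PureW (M : ARM) (s : StW) : Prop :=
  s.1 = none ∨ s.1 = some (.b .e0) ∨ s.1 = some (.b .e1) ∨ s.1 = some .e2 ∨ s.1 = some .e3 ∨
    ∃ j y, j < M.1.length ∧ s.1 = some (vx j (.y y)) ∧ s.2 j = none

/-- both bits are even -/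
def Zero (M : ARM) (s : StW) : Prop :=
  (smZ a1 M.1.length s.2 + c1 s.1) % 2 = 0 ∧ (smZ a0 M.1.length s.2 + c0 s.1) % 2 = 0

/-- the potential -/
def Ph (M : ARM) (s : StW) : ℕ := smZ ph M.1.length s.2 + pc s.1

variable {M : ARM}

theorem exists_odd {w : Option Z → ℕ} {n : ℕ} {ρ : ℕ → Option Z} (h : smZ w n ρ % 2 = 1) :
    ∃ j < n, w (ρ j) ≠ 0 := by
  by_contra hno
  push Not at hno
  have : smZ w n ρ = 0 := Finset.sum_eq_zero fun j hj => hno j (mem_range.1 hj)
  omega

theorem a1_cases {o : Option Z} (h : a1 o ≠ 0) : ∃ y, o = some (.y y) := by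
  rcases o with _ | y | _ | _
  · simp [a1] at h
  · exact ⟨y, rfl⟩
  · simp [a1] at h
  · simp [a1] at h

theorem a0_cases {o : Option Z} (h : a0 o ≠ 0) : o = some (.y .q) ∨ o = some .r1 := by
  rcases o with _ | y | _ | _
  · simp [a0] at h
  · cases y <;> simp [a0] at h ⊢
  · simp [a0] at h
  · simp

theorem c1_cases {s : StW} (hp : PureW M s) (h : c1 s.1 ≠ 0) :
    s.1 = some .e2 ∨ s.1 = some .e3 ∨
      ∃ j y, j < M.1.length ∧ s.1 = some (vx j (.y y)) ∧ s.2 j = none := by
  rcases hp with h1 | h1 | h1 | h1 | h1 | h1
  · simp [h1, c1] at h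
  · simp [h1, c1] at h
  · simp [h1, c1] at h
  · exact Or.inl h1
  · exact Or.inr (Or.inl h1)
  · exact Or.inr (Or.inr h1)

/-- a control token at `e0, …, e3` or in an empty region can go to `e0` and `e1` -/
theorem to_e {s : StW} (hp : PureW M s) (h : c1 s.1 ≠ 0) (v : V) (hv : v = .e0 ∨ v = .e1) :
    SH M s (some (.b v), s.2) := by
  have hf : ∀ j z, (W.b v) = vx j z → s.2 j ≠ some z := by
    intro j z hz
    exfalso
    rcases hv with rfl | rfl <;> cases z <;> simp [vx] at hz
  have hok : okW M (.b v) = true := by rcases hv with rfl | rfl <;> rfl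
  obtain ⟨c, ρ⟩ := s
  rcases c1_cases hp h with h1 | h1 | ⟨j, y, hj, h1, h2⟩
  · simp only at h1
    subst h1
    exact .ctl rfl hok (by rcases hv with rfl | rfl <;> rfl) hf
  · simp only at h1
    subst h1
    exact .ctl rfl hok (by rcases hv with rfl | rfl <;> rfl) hf
  · simp only at h1
    subst h1
    exact .ctl (okW_vx.2 hj) hok (by rcases hv with rfl | rfl <;> rfl) hf

theorem pureW_of {s : StW} (hp : PureW M s) {j : ℕ} (ho : s.2 j ≠ none) (z : Option Z) :
    PureW M (s.1, Function.update s.2 j z) := by
  rcases hp with h1 | h1 | h1 | h1 | h1 | ⟨j', y, hj, h1, h2⟩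
  · exact Or.inl h1
  · exact Or.inr (Or.inl h1)
  · exact Or.inr (Or.inr (Or.inl h1))
  · exact Or.inr (Or.inr (Or.inr (Or.inl h1)))
  · exact Or.inr (Or.inr (Or.inr (Or.inr (Or.inl h1))))
  · refine Or.inr (Or.inr (Or.inr (Or.inr (Or.inr ⟨j', y, hj, h1, ?_⟩))))
    have : j' ≠ j := fun h => ho (h ▸ h2)
    simp only [Function.update_of_ne this, h2]

theorem pureW_free {s : StW} (hp : PureW M s) {j : ℕ} (ho : s.2 j ≠ none) (z : Z) :
    s.1 ≠ some (vx j z) := by
  rcases hp with h1 | h1 | h1 | h1 | h1 | ⟨j', y, hj, h1, h2⟩
  · rw [h1]; simp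
  · rw [h1]; cases z <;> simp [vx]
  · rw [h1]; cases z <;> simp [vx]
  · rw [h1]; cases z <;> simp [vx]
  · rw [h1]; cases z <;> simp [vx]
  · rw [h1]
    intro h
    obtain ⟨rfl, -⟩ := vx_inj (Option.some.inj h)
    exact ho h2

/-- A move of a register token. -/
theorem reg_move {s : StW} (hp : PureW M s) {j : ℕ} (hj : j < M.1.length) {z z' : Z}
    (ho : s.2 j = some z) (h : radjZ z z' = true) :
    SH M s (s.1, Function.update s.2 j (some z')) ∧
      PureW M (s.1, Function.update s.2 j (some z')) := by
  have hne : s.2 j ≠ none := by rw [ho]; simp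
  exact ⟨.rg hj h ho (pureW_free hp hne z'), pureW_of hp hne _⟩

theorem reply {s : StW} (hp : PureW M s) (h : ¬ Zero M s) :
    ∃ s', SH M s s' ∧ PureW M s' ∧ Zero M s' ∧ Ph M s' < Ph M s := by
  unfold Zero at h
  by_cases h1 : (smZ a1 M.1.length s.2 + c1 s.1) % 2 = 0
  · -- the low bit is odd
    have h0 : (smZ a0 M.1.length s.2 + c0 s.1) % 2 = 1 := by
      by_contra h2
      exact h ⟨h1, by omega⟩
    by_cases hc : s.1 = some (.b .e1)
    · refine ⟨(some (.b .e0), s.2), ?_, Or.inr (Or.inl rfl), ⟨?_, ?_⟩, ?_⟩
      · obtain ⟨c, ρ⟩ := s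
        simp only at hc
        subst hc
        exact .ctl rfl rfl rfl (fun j z hz => by cases z <;> simp [vx] at hz)
      · rw [hc] at h1
        simpa [c1] using h1
      · rw [hc] at h0
        simp only [c0] at h0 ⊢
        omega
      · unfold Ph
        rw [hc]
        simp [pc]
    by_cases hc3 : s.1 = some .e3
    · refine ⟨(some .e2, s.2), ?_, Or.inr (Or.inr (Or.inr (Or.inl rfl))), ⟨?_, ?_⟩, ?_⟩
      · obtain ⟨c, ρ⟩ := s
        simp only at hc3
        subst hc3
        exact .ctl rfl rfl rfl (fun j z hz => by cases z <;> simp [vx] at hz)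
      · rw [hc3] at h1
        simpa [c1] using h1
      · rw [hc3] at h0
        simp only [c0] at h0 ⊢
        omega
      · unfold Ph
        rw [hc3]
        simp [pc]
    have hc0 : c0 s.1 = 0 := by
      rcases hp with h2 | h2 | h2 | h2 | h2 | ⟨j', y, hj, h2, h3⟩
      · rw [h2]; rfl
      · rw [h2]; rfl
      · exact absurd h2 hc
      · rw [h2]; rfl
      · exact absurd h2 hc3
      · rw [h2]; rfl
    rw [hc0] at h0
    obtain ⟨j, hj, hj0⟩ := exists_odd (w := a0) (n := M.1.length) (ρ := s.2) (by omega)
    rcases a0_cases hj0 with ho | ho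
    · obtain ⟨m1, m2⟩ := reg_move hp hj ho (show radjZ (.y .q) (.y .t) = true from rfl)
      have u1 := smZ_update a1 hj s.2 (some (.y .t))
      have u0 := smZ_update a0 hj s.2 (some (.y .t))
      have up := smZ_update ph hj s.2 (some (.y .t))
      rw [ho] at u1 u0 up
      simp only [a1, a0, ph] at u1 u0 up
      refine ⟨_, m1, m2, ⟨?_, ?_⟩, ?_⟩
      · simp only; omega
      · simp only [hc0]; omega
      · simp only [Ph]; omega
    · obtain ⟨m1, m2⟩ := reg_move hp hj ho (show radjZ .r1 .r0 = true from rfl)
      have u1 := smZ_update a1 hj s.2 (some .r0)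
      have u0 := smZ_update a0 hj s.2 (some .r0)
      have up := smZ_update ph hj s.2 (some .r0)
      rw [ho] at u1 u0 up
      simp only [a1, a0, ph] at u1 u0 up
      refine ⟨_, m1, m2, ⟨?_, ?_⟩, ?_⟩
      · simp only; omega
      · simp only [hc0]; omega
      · simp only [Ph]; omega
  · -- the high bit is odd
    by_cases hc : c1 s.1 = 0
    · rw [hc] at h1
      obtain ⟨j, hj, hj1⟩ := exists_odd (w := a1) (n := M.1.length) (ρ := s.2) (by omega)
      obtain ⟨y, ho⟩ := a1_cases hj1
      have u1 : ∀ z, smZ a1 M.1.length (Function.update s.2 j (some z)) + 1 =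
          smZ a1 M.1.length s.2 + a1 (some z) := by
        intro z
        have := smZ_update a1 hj s.2 (some z)
        rw [ho] at this
        exact this
      have u0 : ∀ z, smZ a0 M.1.length (Function.update s.2 j (some z)) + a0 (some (.y y)) =
          smZ a0 M.1.length s.2 + a0 (some z) := by
        intro z
        have := smZ_update a0 hj s.2 (some z)
        rw [ho] at this
        exact this
      have up : ∀ z, smZ ph M.1.length (Function.update s.2 j (some z)) + ph (some (.y y)) =
          smZ ph M.1.length s.2 + ph (some z) := by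
        intro z
        have := smZ_update ph hj s.2 (some z)
        rw [ho] at this
        exact this
      have hph : 2 ≤ ph (some (.y y)) := by cases y <;> simp [ph]
      by_cases h2 : (smZ a0 M.1.length s.2 + a0 (some (.y y)) + c0 s.1) % 2 = 0
      · obtain ⟨m1, m2⟩ := reg_move hp hj ho (show radjZ (.y y) .r0 = true from rfl)
        have v1 := u1 .r0
        have v0 := u0 .r0
        have vp := up .r0
        simp only [show a1 (some .r0) = 0 from rfl, show a0 (some .r0) = 0 from rfl,
          show ph (some .r0) = 0 from rfl] at v1 v0 vp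
        refine ⟨_, m1, m2, ⟨?_, ?_⟩, ?_⟩
        · simp only [hc]; omega
        · simp only; omega
        · simp only [Ph]; omega
      · obtain ⟨m1, m2⟩ := reg_move hp hj ho (show radjZ (.y y) .r1 = true from rfl)
        have v1 := u1 .r1
        have v0 := u0 .r1
        have vp := up .r1
        simp only [show a1 (some .r1) = 0 from rfl, show a0 (some .r1) = 1 from rfl,
          show ph (some .r1) = 1 from rfl] at v1 v0 vp
        refine ⟨_, m1, m2, ⟨?_, ?_⟩, ?_⟩
        · simp only [hc]; omega
        · simp only; omega
        · simp only [Ph]; omega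
    · have hc1 : c1 s.1 = 1 := by
        rcases c1_cases hp hc with h2 | h2 | ⟨j, y, _, h2, _⟩ <;> rw [h2] <;> rfl
      have hpc : 2 ≤ pc s.1 := by
        rcases c1_cases hp hc with h2 | h2 | ⟨j, y, _, h2, _⟩ <;> rw [h2] <;> simp [pc, vx]
      rw [hc1] at h1
      by_cases h2 : smZ a0 M.1.length s.2 % 2 = 0
      · refine ⟨_, to_e hp hc .e0 (Or.inl rfl), Or.inr (Or.inl rfl), ⟨?_, ?_⟩, ?_⟩
        · simp only [show c1 (some (.b .e0)) = 0 from rfl]; omega
        · simp only [show c0 (some (.b .e0)) = 0 from rfl]; omega
        · simp only [Ph, show pc (some (.b .e0)) = 0 from rfl]; omega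
      · refine ⟨_, to_e hp hc .e1 (Or.inr rfl), Or.inr (Or.inr (Or.inl rfl)), ⟨?_, ?_⟩, ?_⟩
        · simp only [show c1 (some (.b .e1)) = 0 from rfl]; omega
        · simp only [show c0 (some (.b .e1)) = 1 from rfl]; omega
        · simp only [Ph, show pc (some (.b .e1)) = 1 from rfl]; omega

theorem zero_lose : ∀ (N : ℕ) (s : StW), PureW M s → Ph M s ≤ N → Zero M s →
    Forces (SH M) false s := by
  intro N
  induction N using Nat.strong_induction_on with
  | _ N ih =>
    intro s hp hN hz
    -- a reply after a move which does not increase the potential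
    have key : ∀ s' : StW, PureW M s' → ¬ Zero M s' → Ph M s' ≤ Ph M s → Forces (SH M) true s' := by
      intro s' hp' hz' hle
      obtain ⟨s'', h1, h2, h3, h4⟩ := reply hp' hz'
      exact .win h1 (ih (N - 1) (by omega) _ h2 (by omega) h3)
    obtain ⟨hz1, hz0⟩ := hz
    refine .lose fun s' hs' => ?_
    cases hs' with
    | @ctl v v' ρ h1 h2 h hf =>
      -- moves of the control token
      have hP : PureW M (some v', ρ) ∧ (c1 (some v'), c0 (some v')) ≠ (c1 (some v), c0 (some v)) ∧
          c1 (some v) ≤ 1 ∧ c0 (some v) ≤ 1 ∧ c1 (some v') ≤ 1 ∧ c0 (some v') ≤ 1 ∧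
          pc (some v') ≤ pc (some v) := by
        rcases hp with h3 | h3 | h3 | h3 | h3 | ⟨j', y, hj, h3, h4⟩
        · simp at h3
        · rw [Option.some.inj h3] at h
          rcases v' with v' | _ | _ | _ | _
          · cases v' <;> simp [cadjW, cadj] at h
          · simp [cadjW, ctrl] at h
          · simp [cadjW, ctrl] at h
          · simp [cadjW] at h
          · simp [cadjW] at h
        · have hv : v = .b .e1 := Option.some.inj h3
          subst hv
          have hv' : v' = .b .e0 := by
            rcases v' with v' | _ | _ | _ | _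
            · cases v' <;> simp_all [cadjW, cadj]
            · simp [cadjW, ctrl] at h
            · simp [cadjW, ctrl] at h
            · simp [cadjW] at h
            · simp [cadjW] at h
          subst hv'
          exact ⟨Or.inr (Or.inl rfl), by simp [c1, c0], by simp [c1], by simp [c0], by simp [c1],
            by simp [c0], by simp [pc]⟩
        · have hv : v = .e2 := Option.some.inj h3
          subst hv
          rcases v' with v' | _ | _ | _ | _
          · cases v' with
            | e0 => exact ⟨Or.inr (Or.inl rfl), by simp [c1, c0], by simp [c1], by simp [c0],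
                by simp [c1], by simp [c0], by simp [pc]⟩
            | e1 => exact ⟨Or.inr (Or.inr (Or.inl rfl)), by simp [c1, c0], by simp [c1],
                by simp [c0], by simp [c1], by simp [c0], by simp [pc]⟩
            | _ => simp [cadjW] at h
          · simp [cadjW] at h
          · simp [cadjW] at h
          · simp [cadjW] at h
          · simp [cadjW] at h
        · have hv : v = .e3 := Option.some.inj h3
          subst hv
          rcases v' with v' | _ | _ | _ | _
          · cases v' with
            | e0 => exact ⟨Or.inr (Or.inl rfl), by simp [c1, c0], by simp [c1], by simp [c0],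
                by simp [c1], by simp [c0], by simp [pc]⟩
            | e1 => exact ⟨Or.inr (Or.inr (Or.inl rfl)), by simp [c1, c0], by simp [c1],
                by simp [c0], by simp [c1], by simp [c0], by simp [pc]⟩
            | _ => simp [cadjW] at h
          · exact ⟨Or.inr (Or.inr (Or.inr (Or.inl rfl))), by simp [c1, c0], by simp [c1],
                by simp [c0], by simp [c1], by simp [c0], by simp [pc]⟩
          · simp [cadjW] at h
          · simp [cadjW] at h
          · simp [cadjW] at h
        · have hv : v = vx j' (.y y) := Option.some.inj h3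
          subst hv
          rcases v' with v' | _ | _ | _ | _
          · cases v' with
            | e0 => exact ⟨Or.inr (Or.inl rfl), by simp [c1, c0, vx], by simp [c1, vx],
                by simp [c0, vx], by simp [c1], by simp [c0], by simp [pc, vx]⟩
            | e1 => exact ⟨Or.inr (Or.inr (Or.inl rfl)), by simp [c1, c0, vx], by simp [c1, vx],
                by simp [c0, vx], by simp [c1], by simp [c0], by simp [pc, vx]⟩
            | _ => simp [cadjW, cadj, vx] at h
          · simp [cadjW, vx, ctrl] at h
          · simp [cadjW, vx, ctrl] at h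
          · simp [cadjW, vx] at h
          · simp [cadjW, vx] at h
      obtain ⟨p1, p2, p3, p4, p5, p6, p7⟩ := hP
      refine key _ p1 ?_ ?_
      · rintro ⟨z1, z0⟩
        simp only at hz1 hz0 z1 z0
        apply p2
        rw [Prod.mk.injEq]
        constructor <;> omega
      · simp only [Ph]
        omega
    | @cap v j z ρ h1 h2 h ho =>
      exfalso
      rcases hp with h3 | h3 | h3 | h3 | h3 | ⟨j', y, hj, h3, h4⟩
      · simp at h3
      · rw [Option.some.inj h3] at h
        cases z <;> simp [cadjW, cadj, vx] at h
      · rw [Option.some.inj h3] at h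
        cases z <;> simp [cadjW, cadj, vx] at h
      · rw [Option.some.inj h3] at h
        cases z <;> simp [cadjW, vx] at h
      · rw [Option.some.inj h3] at h
        cases z <;> simp [cadjW, vx] at h
      · rw [Option.some.inj h3] at h
        cases z <;> simp [cadjW, cadj, vx] at h
    | @rg c j z z' ρ hj h ho hc =>
      have hm := reg_move (s := (c, ρ)) hp hj ho h
      have u1 := smZ_update a1 hj ρ (some z')
      have u0 := smZ_update a0 hj ρ (some z')
      have up := smZ_update ph hj ρ (some z')
      rw [ho] at u1 u0 up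
      simp only at hz1 hz0
      by_cases hlift : ∃ b, z = .y (.p b) ∧ z' = .y .q
      · -- the token is lifted: it is killed
        obtain ⟨b, rfl, rfl⟩ := hlift
        simp only [a1, a0, ph] at u1 u0 up
        have hm2 := reg_move hm.2 hj (Function.update_self ..)
          (show radjZ (.y .q) (.y .t) = true from rfl)
        have w1 := smZ_update a1 hj (Function.update ρ j (some (.y .q))) (some (.y .t))
        have w0 := smZ_update a0 hj (Function.update ρ j (some (.y .q))) (some (.y .t))
        have wp := smZ_update ph hj (Function.update ρ j (some (.y .q))) (some (.y .t))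
        rw [Function.update_self] at w1 w0 wp
        simp only [a1, a0, ph] at w1 w0 wp
        refine .win hm2.1 (ih (N - 1) ?_ _ hm2.2 ?_ ⟨?_, ?_⟩)
        · simp only [Ph] at hN
          omega
        · simp only [Ph] at hN ⊢
          omega
        · simp only; omega
        · simp only; omega
      · have hval : (a1 (some z'), a0 (some z')) ≠ (a1 (some z), a0 (some z)) ∧
            a1 (some z) ≤ 1 ∧ a0 (some z) ≤ 1 ∧ a1 (some z') ≤ 1 ∧ a0 (some z') ≤ 1 ∧
            ph (some z') ≤ ph (some z) := by
          rcases z with y | _ | _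
          · rcases z' with y' | _ | _
            · cases y <;> cases y' <;> simp_all [radjZ, radj, a1, a0, ph]
            · cases y <;> simp [a1, a0, ph]
            · cases y <;> simp [a1, a0, ph]
          · simp [radjZ] at h
          · rcases z' with y' | _ | _
            · simp [radjZ] at h
            · simp [a1, a0, ph]
            · simp [radjZ] at h
        obtain ⟨p2, p3, p4, p5, p6, p7⟩ := hval
        refine key _ hm.2 ?_ ?_
        · rintro ⟨z1, z0⟩
          simp only at z1 z0
          apply p2
          rw [Prod.mk.injEq]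
          constructor <;> omega
        · simp only [Ph]
          omega
    | @rcap j z z' ρ hj h ho =>
      exact absurd rfl (pureW_free hp (show ρ j ≠ none by rw [ho]; simp) z')

theorem pure_zero {s : StW} (hp : PureW M s) (hz : Zero M s) : Forces (SH M) false s :=
  zero_lose _ s hp le_rfl hz

theorem pure_nonzero {s : StW} (hp : PureW M s) (hz : ¬ Zero M s) : Forces (SH M) true s := by
  obtain ⟨s', h1, h2, h3, -⟩ := reply hp hz
  exact .win h1 (pure_zero h2 h3)

end Pool.Agent.NPC.Q328.HIT
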