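import Pool.Agent.Q328.HIT.Pure

/-!
# Hit: the same outcomes as Annihilation
-/

set_option autoImplicit false

namespace Pool.Agent.NPC.Q328.HIT

open Pool.Agent.NPC.ANN Pool.Agent.H820R2.SS Finset

variable {M : ARM}

/-- the positions of the register tokens -/
def lift (ρ : ℕ → Option Y) : ℕ → Option Z := fun j => (ρ j).map Z.y

theorem lift_eq {ρ : ℕ → Option Y} {j : ℕ} {z : Z} (h : lift ρ j = some z) :
    ∃ y, ρ j = some y ∧ z = .y y := by
  unfold lift at h
  rw [Option.map_eq_some_iff] at h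
  obtain ⟨y, h1, h2⟩ := h
  exact ⟨y, h1, h2.symm⟩

theorem lift_of {ρ : ℕ → Option Y} {j : ℕ} {y : Y} (h : ρ j = some y) : lift ρ j = some (.y y) := by
  unfold lift
  rw [h]
  rfl

theorem lift_update (ρ : ℕ → Option Y) (j : ℕ) (o : Option Y) :
    lift (Function.update ρ j o) = Function.update (lift ρ) j (o.map Z.y) := by
  funext i
  unfold lift
  simp only [Function.update_apply]
  split_ifs <;> rfl

/-- all register tokens are in play -/
def Full (M : ARM) (ρ : ℕ → Option Y) : Prop := ∀ j < M.1.length, ρ j ≠ none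

theorem Full.update {ρ : ℕ → Option Y} (h : Full M ρ) (j : ℕ) (y : Y) :
    Full M (Function.update ρ j (some y)) := by
  intro i hi
  rw [Function.update_apply]
  split_ifs
  · simp
  · exact h i hi

theorem sm_a1 {ρ : ℕ → Option Y} (h : Full M ρ) : smZ a1 M.1.length (lift ρ) = M.1.length := by
  unfold smZ
  rw [Finset.sum_congr rfl (g := fun _ => 1), Finset.sum_const, card_range, smul_eq_mul, mul_one]
  intro j hj
  rw [mem_range] at hj
  obtain ⟨y, hy⟩ := Option.ne_none_iff_exists'.1 (h j hj)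
  rw [lift_of hy]
  rfl

theorem sm_a0 (ρ : ℕ → Option Y) : smZ a0 M.1.length (lift ρ) = nq M.1.length ρ := by
  unfold smZ nq sm
  refine Finset.sum_congr rfl fun j _ => ?_
  unfold lift isq
  cases ho : ρ j with
  | none => simp [a0]
  | some y => cases y <;> simp [a0]

/-- related positions -/
def RR (M : ARM) (s : St) (s' : StW) : Prop :=
  ∃ (v : V) (ρ : ℕ → Option Y), ctrl v = true ∧ ok M v = true ∧ Full M ρ ∧ s = (some v, ρ) ∧
    s' = (some (.b v), lift ρ)

theorem ctrl_vx {v : V} (hv : ctrl v = true) (j : ℕ) (z : Z) : W.b v ≠ vx j z := by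
  cases z with
  | y y => intro h; simp only [vx, W.b.injEq] at h; subst h; simp [ctrl] at hv
  | r0 => simp [vx]
  | r1 => simp [vx]

/-- the exit `e1` -/
theorem at_e1 (hM : M.1.length % 2 = 0) {ρ : ℕ → Option Y} (hf : Full M ρ) :
    (Forces (SStep M) true (some .e1, ρ) ∧ Forces (SH M) true (some (.b .e1), lift ρ)) ∨
    (Forces (SStep M) false (some .e1, ρ) ∧ Forces (SH M) false (some (.b .e1), lift ρ)) := by
  have hp : PureW M (some (.b .e1), lift ρ) := Or.inr (Or.inr (Or.inl rfl))
  have e1 := sm_a1 hf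
  have e0 := sm_a0 (M := M) ρ
  by_cases h : nq M.1.length ρ % 2 = 1
  · right
    refine ⟨pure_lose (Or.inr (Or.inr rfl)) ?_, pure_zero hp ⟨?_, ?_⟩⟩
    · simp [ce]; omega
    · simp only [c1]; omega
    · simp only [c0]; omega
  · left
    refine ⟨pure_win (Or.inr (Or.inr rfl)) ?_, pure_nonzero hp ?_⟩
    · simp [ce]; omega
    · rintro ⟨-, h0⟩
      simp only [c0] at h0
      omega

/-- a capture -/
theorem at_cap (hM : M.1.length % 2 = 0) {ρ : ℕ → Option Y} (hf : Full M ρ) {j : ℕ}
    (hj : j < M.1.length) {y : Y} (ho : ρ j = some y) :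
    (Forces (SStep M) true (none, Function.update ρ j none) ∧
      Forces (SH M) true (some (vx j (.y y)), Function.update (lift ρ) j none)) ∨
    (Forces (SStep M) false (none, Function.update ρ j none) ∧
      Forces (SH M) false (some (vx j (.y y)), Function.update (lift ρ) j none)) := by
  have hp : PureW M (some (vx j (.y y)), Function.update (lift ρ) j none) :=
    Or.inr (Or.inr (Or.inr (Or.inr (Or.inr ⟨j, y, hj, rfl, Function.update_self ..⟩))))
  have e1 := sm_a1 hf
  have e0 := sm_a0 (M := M) ρ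
  have u1 := smZ_update a1 hj (lift ρ) none
  have u0 := smZ_update a0 hj (lift ρ) none
  have u := sm_update isq hj ρ none
  rw [lift_of ho] at u1 u0
  rw [ho] at u
  have hq : a0 (some (.y y)) = isq (some y) := by cases y <;> simp [a0, isq]
  rw [hq] at u0
  simp only [show a1 (some (.y y)) = 1 from rfl, show a1 none = 0 from rfl] at u1
  simp only [show a0 none = 0 from rfl] at u0
  simp only [show isq none = 0 from rfl] at u
  have hn : nq M.1.length ρ = sm isq M.1.length ρ := rfl
  have hn' : nq M.1.length (Function.update ρ j none) = sm isq M.1.length (Function.update ρ j none) :=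
    rfl
  have k1 : c1 (some (vx j (.y y))) = 1 := rfl
  have k0 : c0 (some (vx j (.y y))) = 0 := rfl
  by_cases h : nq M.1.length (Function.update ρ j none) % 2 = 0
  · right
    refine ⟨pure_lose (Or.inl rfl) ?_, pure_zero hp ⟨?_, ?_⟩⟩
    · simp [ce]; omega
    · simp only [k1]; omega
    · simp only [k0]; omega
  · left
    refine ⟨pure_win (Or.inl rfl) ?_, pure_nonzero hp ?_⟩
    · simp [ce]; omega
    · rintro ⟨-, h0⟩
      simp only [k0] at h0
      omega

/-- entering a region without a capture loses -/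
theorem at_enter (hM : M.1.length % 2 = 0) {ρ : ℕ → Option Y} (hf : Full M ρ) {j : ℕ}
    (hj : j < M.1.length) (y : Y) : Forces (SH M) true (some (vx j (.y y)), lift ρ) := by
  have e1 := sm_a1 hf
  have e0 := sm_a0 (M := M) ρ
  have hok : okW M (vx j (.y y)) = true := okW_vx.2 hj
  by_cases h : nq M.1.length ρ % 2 = 0
  · refine .win (.ctl (v' := .b .e0) hok rfl rfl (fun j z hz => by cases z <;> simp [vx] at hz))
      (pure_zero (Or.inr (Or.inl rfl)) ⟨?_, ?_⟩)
    · simp only [c1]; omega
    · simp only [c0]; omega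
  · refine .win (.ctl (v' := .b .e1) hok rfl rfl (fun j z hz => by cases z <;> simp [vx] at hz))
      (pure_zero (Or.inr (Or.inr (Or.inl rfl))) ⟨?_, ?_⟩)
    · simp only [c1]; omega
    · simp only [c0]; omega

/-- the exits `e2` and `e3` -/
theorem at_e23 (hM : M.1.length % 2 = 0) {ρ : ℕ → Option Y} (hf : Full M ρ) (w : W)
    (hw : w = .e2 ∨ w = .e3) : Forces (SH M) true (some w, lift ρ) := by
  have e1 := sm_a1 hf
  refine pure_nonzero ?_ ?_
  · rcases hw with rfl | rfl
    · exact Or.inr (Or.inr (Or.inr (Or.inl rfl)))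
    · exact Or.inr (Or.inr (Or.inr (Or.inr (Or.inl rfl))))
  · rintro ⟨h1, -⟩
    rcases hw with rfl | rfl <;> simp only [c1] at h1 <;> omega

/-- moving a register token to `r0` or `r1` loses -/
theorem at_r (hM : M.1.length % 2 = 0) {ρ : ℕ → Option Y} (hf : Full M ρ) {v : V}
    (hv : ctrl v = true) (hk : ok M v = true) {j : ℕ} (hj : j < M.1.length) {z : Z}
    (hz : z = .r0 ∨ z = .r1) : Forces (SH M) true (some (.b v), Function.update (lift ρ) j (some z)) := by
  obtain ⟨y, ho⟩ := Option.ne_none_iff_exists'.1 (hf j hj)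
  have e1 := sm_a1 hf
  have u1 := smZ_update a1 hj (lift ρ) (some z)
  rw [lift_of ho] at u1
  have hz1 : a1 (some z) = 0 := by rcases hz with rfl | rfl <;> rfl
  rw [hz1] at u1
  simp only [show a1 (some (.y y)) = 1 from rfl] at u1
  have hfe : ∀ (w : W), (w = .e2 ∨ w = .e3) → ∀ j' z', w = vx j' z' →
      Function.update (lift ρ) j (some z) j' ≠ some z' := by
    rintro w hw j' z' rfl
    exfalso
    rcases hw with h | h <;> cases z' <;> simp [vx] at h
  by_cases h : smZ a0 M.1.length (Function.update (lift ρ) j (some z)) % 2 = 0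
  · refine .win (.ctl (v' := .e2) hk rfl hv (hfe _ (Or.inl rfl)))
      (pure_zero (Or.inr (Or.inr (Or.inr (Or.inl rfl)))) ⟨?_, ?_⟩)
    · simp only [c1]; omega
    · simp only [c0]; omega
  · refine .win (.ctl (v' := .e3) hk rfl hv (hfe _ (Or.inr rfl)))
      (pure_zero (Or.inr (Or.inr (Or.inr (Or.inr (Or.inl rfl))))) ⟨?_, ?_⟩)
    · simp only [c1]; omega
    · simp only [c0]; omega

theorem cadj_e0 {v : V} (hv : ctrl v = true) : cadj M v .e0 = false := by
  cases v <;> simp [cadj, ctrl] at hv ⊢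

theorem SH.split {c : W} {ρ : ℕ → Option Z} {s' : StW} (h : SH M (some c, ρ) s') :
    (∃ v', okW M c = true ∧ okW M v' = true ∧ cadjW M c v' = true ∧
      (∀ j z, v' = vx j z → ρ j ≠ some z) ∧ s' = (some v', ρ)) ∨
    (∃ j z, okW M c = true ∧ j < M.1.length ∧ cadjW M c (vx j z) = true ∧ ρ j = some z ∧
      s' = (some (vx j z), Function.update ρ j none)) ∨
    (∃ j z z', j < M.1.length ∧ radjZ z z' = true ∧ ρ j = some z ∧ some c ≠ some (vx j z') ∧
      s' = (some c, Function.update ρ j (some z'))) ∨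
    ∃ j z z', j < M.1.length ∧ radjZ z z' = true ∧ ρ j = some z ∧ c = vx j z' ∧
      s' = (none, Function.update ρ j (some z')) := by
  generalize hs : ((some c, ρ) : StW) = s at h
  cases h with
  | @ctl v v' ρ' h1 h2 h h4 =>
    obtain ⟨e1, e2⟩ := Prod.mk.inj hs
    obtain rfl := Option.some.inj e1
    subst e2
    exact Or.inl ⟨v', h1, h2, h, h4, rfl⟩
  | @cap v j z ρ' h1 h2 h ho =>
    obtain ⟨e1, e2⟩ := Prod.mk.inj hs
    obtain rfl := Option.some.inj e1
    subst e2
    exact Or.inr (Or.inl ⟨j, z, h1, h2, h, ho, rfl⟩)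
  | @rg c' j z z' ρ' hj h ho hc =>
    obtain ⟨e1, e2⟩ := Prod.mk.inj hs
    subst e1 e2
    exact Or.inr (Or.inr (Or.inl ⟨j, z, z', hj, h, ho, hc, rfl⟩))
  | @rcap j z z' ρ' hj h ho =>
    obtain ⟨e1, e2⟩ := Prod.mk.inj hs
    have e3 := Option.some.inj e1
    subst e2
    exact Or.inr (Or.inr (Or.inr ⟨j, z, z', hj, h, ho, e3, rfl⟩))

/-- **Related positions have the same outcome.** -/
theorem same (hM : M.1.length % 2 = 0) {s : St} {s' : StW} (h : RR M s s') (w : Bool) :
    Forces (SStep M) w s ↔ Forces (SH M) w s' := by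
  refine forces_upto_iff (R := RR M) ?_ ?_ h
  · rintro _ _ ⟨v, ρ, hv, hk, hf, rfl, rfl⟩ s1 hs1
    cases hs1 with
    | @ctl _ v' _ h1 h2 h3 h4 =>
      by_cases hc : ctrl v' = true
      · refine Or.inr ⟨(some (.b v'), lift ρ), .ctl h1 h2 h3 ?_, Or.inl ⟨v', ρ, hc, h2, hf, rfl, rfl⟩⟩
        intro j z hz
        exact absurd hz (ctrl_vx hc j z)
      · cases v' with
        | e0 => rw [cadj_e0 hv] at h3; simp at h3
        | e1 =>
          rcases at_e1 hM hf with h5 | h5
          · exact Or.inl h5.1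
          · refine Or.inr ⟨(some (.b .e1), lift ρ), .ctl h1 rfl h3 ?_, Or.inr h5⟩
            intro j z hz
            cases z <;> simp [vx] at hz
        | reg j y => exact Or.inl (win_reg (by simpa [ok] using h2))
        | _ => simp [ctrl] at hc
    | @cap _ j y _ h1 h2 h3 ho =>
      rcases at_cap hM hf h2 ho with h5 | h5
      · exact Or.inl h5.1
      · exact Or.inr ⟨_, .cap (z := .y y) h1 h2 h3 (lift_of ho), Or.inr h5⟩
    | @rg _ j y y' _ hj h3 ho hc =>
      refine Or.inr ⟨_, .rg (z := .y y) (z' := .y y') hj h3 (lift_of ho) ?_,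
        Or.inl ⟨v, Function.update ρ j (some y'), hv, hk, hf.update j y', rfl, ?_⟩⟩
      · intro h
        exact ctrl_vx hv j (.y y') (Option.some.inj h)
      · rw [lift_update]
        rfl
    | rcap hj h3 ho => simp [ctrl] at hv
  · rintro _ _ ⟨v, ρ, hv, hk, hf, rfl, rfl⟩ s1 hs1
    rcases SH.split hs1 with ⟨w', h1, h2, h3, h4, rfl⟩ | ⟨j, z, h1, h2, h3, ho, rfl⟩ |
      ⟨j, z, z', hj, h3, ho, hc, rfl⟩ | ⟨j, z, z', hj, h3, ho, hc, rfl⟩
    · rcases w' with v' | _ | _ | i | i
      · by_cases hc : ctrl v' = true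
        · exact Or.inr ⟨(some v', ρ), .ctl h1 h2 h3 (fun j y hy => by
            subst hy; simp [ctrl] at hc), Or.inl ⟨v', ρ, hc, h2, hf, rfl, rfl⟩⟩
        · cases v' with
          | e0 =>
            have : cadj M v .e0 = true := h3
            rw [cadj_e0 hv] at this
            simp at this
          | e1 =>
            rcases at_e1 hM hf with h5 | h5
            · exact Or.inl h5.2
            · exact Or.inr ⟨(some .e1, ρ), .ctl h1 rfl h3 (fun j y hy => by simp at hy), Or.inr h5⟩
          | reg j y => exact Or.inl (at_enter hM hf (by simpa [okW, ok] using h2) y)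
          | _ => simp [ctrl] at hc
      · exact Or.inl (at_e23 hM hf _ (Or.inl rfl))
      · exact Or.inl (at_e23 hM hf _ (Or.inr rfl))
      · simp [cadjW] at h3
      · simp [cadjW] at h3
    · obtain ⟨y, hy, rfl⟩ := lift_eq ho
      rcases at_cap hM hf h2 hy with h5 | h5
      · exact Or.inl h5.2
      · exact Or.inr ⟨_, .cap h1 h2 h3 hy, Or.inr h5⟩
    · obtain ⟨y, hy, rfl⟩ := lift_eq ho
      rcases z' with y' | _ | _
      · refine Or.inr ⟨(some v, Function.update ρ j (some y')), .rg hj h3 hy (fun h => by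
          have := Option.some.inj h
          subst this
          simp [ctrl] at hv), Or.inl ⟨v, Function.update ρ j (some y'), hv, hk, hf.update j y', rfl, ?_⟩⟩
        rw [lift_update]
        rfl
      · exact Or.inl (at_r hM hf hv hk hj (Or.inl rfl))
      · exact Or.inl (at_r hM hf hv hk hj (Or.inr rfl))
    · exact absurd hc (ctrl_vx hv j z')

end Pool.Agent.NPC.Q328.HIT
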